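import Pool.Agent.Lib.MP_8cb858_nt.PV.All

/-!
# The Poonen-Rains law in the height ordering, for curves with large twist part, over every number
field and in every residue class

`Sel 2 E` (file `SEL/Defs.lean`) is the 2-Selmer group: continuous cocycles of the absolute Galois
group with values in `E[2]` which are locally trivial in `H^1(F_v, E)` at all places `v`, modulo
coboundaries; `Box F X` is the set of the pairs `(a, b)` of integers of `F` with `4a^3+27b^2 ≠ 0` and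
`max (|a|_v^3, |b|_v^2) ≤ X v` for all infinite places `v`.
-/

namespace Pool.Agent.Results.MP_8cb858_nt.LargeTwist

open NumberField Pool.Agent.Lib.MP_8cb858_nt Pool.Agent.Lib.MP_8cb858_nt.SEL

/-- The Poonen-Rains value `C_{2,d} = ∏_{j ≥ 0} (1 + 2^(-j))^(-1) ∏_{i=1}^{d} 2/(2^i - 1)`. -/
noncomputable def C2 (d : ℕ) : ℝ :=
  (∏' j : ℕ, (1 + (2 : ℝ)⁻¹ ^ j)⁻¹) * ∏ i ∈ Finset.range d, 2 / ((2 : ℝ) ^ (i + 1) - 1)

section

variable {F : Type} [Field F] [NumberField F]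

/-- The pairs `(a, b)` of integers of `F` congruent to `(a₀, b₀)` modulo the ideal `𝔪` whose twist
part has norm at least `Y`: there is an ideal `I` of norm at least `Y` such that `I^2` divides `a`
and `I^3` divides `b`. -/
def Family (𝔪 : Ideal (𝓞 F)) (a₀ b₀ : 𝓞 F) (Y : ℝ) : Set (𝓞 F × 𝓞 F) :=
  {q | q.1 - a₀ ∈ 𝔪 ∧ q.2 - b₀ ∈ 𝔪 ∧
    ∃ I : Ideal (𝓞 F), Y ≤ (Ideal.absNorm I : ℝ) ∧ q.1 ∈ I ^ 2 ∧ q.2 ∈ I ^ 3}

/-- The pairs `(a, b)` such that the 2-Selmer group of `y^2 = x^3 + a x + b` over `F` has dimension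
`d` over the field with two elements. -/
def SelDim (d : ℕ) : Set (𝓞 F × 𝓞 F) :=
  {q | Nat.card (Sel 2 (curve (q.1 : F) (q.2 : F))) = 2 ^ d}

end

/-- **The Poonen-Rains law in the height ordering for curves with large twist part.** Let `F` be a
number field and `(a₀, b₀)` a pair of classes modulo the nonzero ideal `𝔪`. There is `c > 0` such
that for every `ε > 0` and all large `Y`: in all large boxes `X` (`X v = X` for all `v`: height
ordering) the pairs `(a, b)` congruent to `(a₀, b₀)` for which there is an ideal `I` of norm at least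
`Y` with `I^2 ∣ a`, `I^3 ∣ b` make up a proportion at least `c / Y^4` of all pairs, and among them the
proportion of the curves with `dim Sel_2 = d` differs from `C_{2,d}` by at most `ε`, for all `d`. -/
theorem result (F : Type) [Field F] [NumberField F] (𝔪 : Ideal (𝓞 F)) (h𝔪 : 𝔪 ≠ ⊥)
    (a₀ b₀ : 𝓞 F) :
    ∃ c : ℝ, 0 < c ∧ ∀ ε : ℝ, 0 < ε → ∃ Y₀ : ℝ, 1 ≤ Y₀ ∧ ∀ Y : ℝ, Y₀ ≤ Y →
      ∃ X₀ : ℝ, ∀ X : InfinitePlace F → ℝ, (∀ v, X₀ ≤ X v) →
        0 < (Box F X).ncard ∧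
        c / Y ^ 4 * ((Box F X).ncard : ℝ) ≤ ((Box F X ∩ Family 𝔪 a₀ b₀ Y).ncard : ℝ) ∧
        ∀ d : ℕ, |((Box F X ∩ Family 𝔪 a₀ b₀ Y ∩ SelDim d).ncard : ℝ) -
          C2 d * ((Box F X ∩ Family 𝔪 a₀ b₀ Y).ncard : ℝ)| ≤
            ε * ((Box F X ∩ Family 𝔪 a₀ b₀ Y).ncard : ℝ) := by
  obtain ⟨c, hc, h⟩ := PV.mainC PV.All.hMLM PV.All.hTWX PV.All.hLWC PV.All.hTAL PV.All.hUPB
    PF.All.hBOX PU.All.hEQZ PU.All.hIDA F 𝔪 (a₀, b₀) h𝔪
  refine ⟨c, hc, fun ε hε => ?_⟩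
  obtain ⟨Y0, hY01, hY0⟩ := h ε hε
  refine ⟨Y0, hY01, fun Y hY => ?_⟩
  obtain ⟨X0, hX0⟩ := hY0 Y hY
  exact ⟨X0, fun X hX => hX0 X hX (Box F X ∩ Family 𝔪 a₀ b₀ Y) rfl⟩

end Pool.Agent.Results.MP_8cb858_nt.LargeTwist
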