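import Pool.Agent.Lib.MP_8cb858_nt.PU.REC

/-!
# The Poonen-Rains law for 2-Selmer groups up to epsilon, in families of positive density inside
# every residue class, over every number field

`Sel 2 E` (file `SEL/Defs.lean`) is the 2-Selmer group: continuous cocycles of the absolute Galois
group with values in `E[2]` which are locally trivial in `H^1(F_v, E)` at all places `v`, modulo
coboundaries; `Box F X` is the set of the pairs `(a, b)` of integers of `F` with `4a^3+27b^2 ≠ 0` and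
`max (|a|_v^3, |b|_v^2) ≤ X v` for all infinite places `v`.
-/

namespace Pool.Agent.Results.MP_8cb858_nt.PoonenRainsEps

open NumberField IsDedekindDomain Pool.Agent.Lib.MP_8cb858_nt.SEL

/-- The Poonen-Rains value `C_{2,d} = ∏_{j ≥ 0} (1 + 2^(-j))^(-1) ∏_{i=1}^{d} 2/(2^i - 1)`. -/
noncomputable def C2 (d : ℕ) : ℝ :=
  (∏' j : ℕ, (1 + (2 : ℝ)⁻¹ ^ j)⁻¹) * ∏ i ∈ Finset.range d, 2 / ((2 : ℝ) ^ (i + 1) - 1)

section

variable (F : Type) [Field F] [NumberField F]

/-- The family of the pairs `(a, b)` of integers of `F` given by `a > 0` at the real places, a set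
`R` of pairs of classes modulo `N`, and `4 a^3 + 27 b^2 ∉ v^2` for all primes `v` of `F` not
dividing `N`. -/
def Family (N : ℕ)
    (R : Set ((𝓞 F ⧸ Ideal.span {(N : 𝓞 F)}) × (𝓞 F ⧸ Ideal.span {(N : 𝓞 F)}))) :
    Set (𝓞 F × 𝓞 F) :=
  {q | (∀ v : InfinitePlace F, v.IsReal → 0 < (v.embedding (q.1 : F)).re) ∧
    (Ideal.Quotient.mk (Ideal.span {(N : 𝓞 F)}) q.1,
      Ideal.Quotient.mk (Ideal.span {(N : 𝓞 F)}) q.2) ∈ R ∧
    ∀ v : HeightOneSpectrum (𝓞 F), (N : 𝓞 F) ∉ v.asIdeal →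
      4 * q.1 ^ 3 + 27 * q.2 ^ 2 ∉ v.asIdeal ^ 2}

/-- The pairs `(a, b)` such that the 2-Selmer group of `y^2 = x^3 + a x + b` over `F` has dimension
`d` over the field with two elements. -/
def SelDim (d : ℕ) : Set (𝓞 F × 𝓞 F) :=
  {q | Nat.card (Sel 2 (curve (q.1 : F) (q.2 : F))) = 2 ^ d}

end

/-- Let `F` be a number field and `(a₀, b₀)` a pair of classes modulo `N₀ ≥ 1`. For every `ε > 0`
there is a family of positive density inside the residue class, given by congruence conditions and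
`a > 0` at the real places, in which the proportion of the curves with `dim Sel_2 = d` differs from
`C_{2,d}` by at most `ε`, for all `d` and all large boxes `X` (`X v = X` for all `v`: height
ordering). -/
theorem result (F : Type) [Field F] [NumberField F] (N₀ : ℕ) (hN₀ : 0 < N₀) (a₀ b₀ : 𝓞 F)
    (ε : ℝ) (hε : 0 < ε) :
    ∃ (N : ℕ) (R : Set ((𝓞 F ⧸ Ideal.span {(N : 𝓞 F)}) × (𝓞 F ⧸ Ideal.span {(N : 𝓞 F)})))
      (c X₀ : ℝ), 0 < N ∧ 0 < c ∧
      (∀ q ∈ Family F N R, q.1 - a₀ ∈ Ideal.span {(N₀ : 𝓞 F)} ∧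
        q.2 - b₀ ∈ Ideal.span {(N₀ : 𝓞 F)}) ∧
      ∀ X : InfinitePlace F → ℝ, (∀ v, X₀ ≤ X v) →
        c * ((Box F X).ncard : ℝ) ≤ ((Family F N R ∩ Box F X).ncard : ℝ) ∧
        ∀ d : ℕ, |((Family F N R ∩ Box F X ∩ SelDim F d).ncard : ℝ) -
          C2 d * ((Family F N R ∩ Box F X).ncard : ℝ)| ≤
            ε * ((Family F N R ∩ Box F X).ncard : ℝ) := by
  obtain ⟨N, R, c, X0, h1, h2, h3, h4⟩ :=
    (Pool.Agent.Lib.MP_8cb858_nt.PF.All.hFIN F N₀ (a₀, b₀) hN₀).1 ε hε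
  exact ⟨N, R, c, X0, h1, h2, fun q hq => h3 hq, h4⟩

end Pool.Agent.Results.MP_8cb858_nt.PoonenRainsEps
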