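import Pool.Agent.Lib.MP_8cb858_nt.PV.All

/-!
# The Poonen-Rains law for almost all quadratic twists of every dense family of elliptic curves,
over every number field

`Sel 2 E` (file `SEL/Defs.lean`) is the 2-Selmer group: continuous cocycles of the absolute Galois
group with values in `E[2]` which are locally trivial in `H^1(F_v, E)` at all places `v`, modulo
coboundaries; `Box F X` is the set of the pairs `(a, b)` of integers of `F` with `4a^3+27b^2 ≠ 0` and
`max (|a|_v^3, |b|_v^2) ≤ X v` for all infinite places `v`.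
-/

namespace Pool.Agent.Results.MP_8cb858_nt.PoonenRainsTwists

open NumberField IsDedekindDomain Pool.Agent.Lib.MP_8cb858_nt.SEL

/-- The Poonen-Rains value `C_{2,d} = ∏_{j ≥ 0} (1 + 2^(-j))^(-1) ∏_{i=1}^{d} 2/(2^i - 1)`. -/
noncomputable def C2 (d : ℕ) : ℝ :=
  (∏' j : ℕ, (1 + (2 : ℝ)⁻¹ ^ j)⁻¹) * ∏ i ∈ Finset.range d, 2 / ((2 : ℝ) ^ (i + 1) - 1)

section

variable {F : Type} [Field F] [NumberField F]

/-- The norm of the twist by `D`: the product of the norms of the primes of `F` at which `D` has odd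
valuation (for `F = ℚ` and a squarefree positive integer `D` this is `D`). -/
noncomputable def twistNorm (D : Fˣ) : ℕ :=
  ∏ᶠ v ∈ {v : HeightOneSpectrum (𝓞 F) | ¬ ∃ n : ℤ, v.valuation F (D : F) = WithZero.exp (2 * n)},
    Ideal.absNorm v.asIdeal

variable (F) in
/-- The group of the quadratic twists: `Fˣ` modulo squares. -/
abbrev Twist : Type := Fˣ ⧸ (powMonoidHom 2 : Fˣ →* Fˣ).range

variable (F) in
/-- The quadratic twists of norm at most `Y`. -/
def Twists (Y : ℝ) : Set (Twist F) := {c | ∃ D : Fˣ, (D : Twist F) = c ∧ (twistNorm D : ℝ) ≤ Y}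

/-- The pairs `(a, b)` of integers of `F` such that the 2-Selmer group over `F` of
`y^2 = x^3 + a D^2 x + b D^3` (the quadratic twist by `D` of `y^2 = x^3 + a x + b`) has dimension `d`
over the field with two elements. -/
def SelDim (D : Fˣ) (d : ℕ) : Set (𝓞 F × 𝓞 F) :=
  {q | Nat.card (Sel 2 (curve ((q.1 : F) * (D : F) ^ 2) ((q.2 : F) * (D : F) ^ 3))) = 2 ^ d}

/-- The proportion of the pairs of the family `𝓕` whose twist by `D` has `dim Sel_2 = d`. -/
noncomputable def proportion (𝓕 : Set (𝓞 F × 𝓞 F)) (D : Fˣ) (d : ℕ) : ℝ :=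
  ((𝓕 ∩ SelDim D d).ncard : ℝ) / (𝓕.ncard : ℝ)

end

/-- **The Poonen-Rains law for almost all quadratic twists of every dense family of curves.** Let `F`
be a number field and `ε, θ > 0`. For all large `Y` there are only finitely many twists of norm at
most `Y`, and for all large boxes `X` (`X v = X` for all `v`: height ordering) and EVERY set `𝓕` of
pairs of the box which contains at least the proportion `θ` of the box, all but a fraction at most
`ε` of the twists `D` of norm at most `Y` have the property that the proportion of the pairs of `𝓕`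
whose twist by `D` has `dim Sel_2 = d` differs from `C_{2,d}` by at most `ε`, for all `d`. -/
theorem result (F : Type) [Field F] [NumberField F] (ε θ : ℝ) (hε : 0 < ε) (hθ : 0 < θ) :
    ∃ Y₀ : ℝ, ∀ Y : ℝ, Y₀ ≤ Y → (Twists F Y).Finite ∧ (Twists F Y).Nonempty ∧
      ∃ X₀ : ℝ, ∀ X : InfinitePlace F → ℝ, (∀ v, X₀ ≤ X v) → 0 < (Box F X).ncard ∧
        ∀ 𝓕 : Set (𝓞 F × 𝓞 F), 𝓕 ⊆ Box F X → θ * ((Box F X).ncard : ℝ) ≤ (𝓕.ncard : ℝ) →
          ({c ∈ Twists F Y | ∃ D : Fˣ, (D : Twist F) = c ∧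
            ∃ d : ℕ, ε < |proportion 𝓕 D d - C2 d|}.ncard : ℝ) ≤
              ε * ((Twists F Y).ncard : ℝ) := by
  obtain ⟨Y0, hY0⟩ := Pool.Agent.Lib.MP_8cb858_nt.PU.All.hFN2 F ε θ hε hθ
  obtain ⟨hfin, c, Y1, hc, hlow⟩ := Pool.Agent.Lib.MP_8cb858_nt.PU.All.hCTW F
  refine ⟨max (max Y0 Y1) 1, fun Y hY => ⟨hfin Y, ?_, ?_⟩⟩
  · have h2 := hlow Y ((le_max_right _ _).trans ((le_max_left _ _).trans hY))
    have h3 : 0 < c * Y := mul_pos hc (lt_of_lt_of_le one_pos ((le_max_right _ _).trans hY))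
    have h4 : 0 < ((Twists F Y).ncard : ℝ) := lt_of_lt_of_le h3 h2
    exact (Set.ncard_pos (hfin Y)).1 (by exact_mod_cast h4)
  · obtain ⟨X0, hX0⟩ := hY0 Y ((le_max_left _ _).trans ((le_max_left _ _).trans hY))
    obtain ⟨X1, hX1⟩ : ∃ X1 : ℝ, ∀ X : InfinitePlace F → ℝ, (∀ v, X1 ≤ X v) →
        0 < (Box F X).ncard := by
      obtain ⟨X1, h⟩ := Pool.Agent.Lib.MP_8cb858_nt.PU.FN2M.box_ev
        Pool.Agent.Lib.MP_8cb858_nt.PF.All.hBOX F 1
      refine ⟨X1, fun X hX => ?_⟩
      obtain ⟨ρ, hρ, hB⟩ := h X hX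
      rw [hB]
      exact (Pool.Agent.Lib.MP_8cb858_nt.PU.All.hEQZ F).2.1 ρ hρ
    exact ⟨max X0 X1, fun X hX => ⟨hX1 X fun v => (le_max_right _ _).trans (hX v),
      fun 𝓕 h1 h2 => hX0 X (fun v => (le_max_left _ _).trans (hX v)) 𝓕 h1 h2⟩⟩

end Pool.Agent.Results.MP_8cb858_nt.PoonenRainsTwists
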