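import Pool.Agent.Lib.MP_8cb858_nt.PV.All
import Pool.Agent.Lib.MP_8cb858_nt.PV.FNO

/-!
# The Poonen-Rains law for all elliptic curves over a number field, ordered by the height of the base
and the norm of the twist part

`Sel 2 E` (file `SEL/Defs.lean`) is the 2-Selmer group: continuous cocycles of the absolute Galois
group with values in `E[2]` which are locally trivial in `H^1(F_v, E)` at all places `v`, modulo
coboundaries.
-/

namespace Pool.Agent.Results.MP_8cb858_nt.TwistHeightOrder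

open Filter Topology NumberField Pool.Agent.Lib.MP_8cb858_nt Pool.Agent.Lib.MP_8cb858_nt.SEL

/-- The Poonen-Rains value `C_{2,d} = ∏_{j ≥ 0} (1 + 2^(-j))^(-1) ∏_{i=1}^{d} 2/(2^i - 1)`. -/
noncomputable def C2 (d : ℕ) : ℝ :=
  (∏' j : ℕ, (1 + (2 : ℝ)⁻¹ ^ j)⁻¹) * ∏ i ∈ Finset.range d, 2 / ((2 : ℝ) ^ (i + 1) - 1)

section

variable {F : Type} [Field F] [NumberField F]

/-- The norm of the twist part of the pair `(a, b)`: the largest norm of an ideal `I` such that `I^2`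
divides `a` and `I^3` divides `b`. -/
noncomputable def twistNorm (q : 𝓞 F × 𝓞 F) : ℕ :=
  sSup {m : ℕ | ∃ I : Ideal (𝓞 F), Ideal.absNorm I = m ∧ q.1 ∈ I ^ 2 ∧ q.2 ∈ I ^ 3}

/-- The height of the base of `(a, b)`: the maximum over the infinite places `v` of
`(max (|a|^3, |b|^2) / m^(6/n))^(mult v)`, where `m` is the norm of the twist part, `n = [F : ℚ]`, and
`|x|` is the usual absolute value at `v` (`F = ℚ`: `(a, b) = (a' D^2, b' D^3)` with `D = m` as large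
as possible has the base height `max (|a'|^3, b'^2)`). -/
noncomputable def baseHeight (q : 𝓞 F × 𝓞 F) : ℝ :=
  ⨆ v : InfinitePlace F, (max (v (q.1 : F) ^ 3) (v (q.2 : F) ^ 2) /
    (twistNorm q : ℝ) ^ (6 / (Module.finrank ℚ F : ℝ))) ^ v.mult

/-- The ordering: the maximum of the base height and of `Φ` of the norm of the twist part. -/
noncomputable def twistHeight (Φ : ℕ → ℝ) (q : 𝓞 F × 𝓞 F) : ℝ :=
  max (baseHeight q) (Φ (twistNorm q))

variable (F) in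
/-- The pairs `(a, b)` of integers of `F` with `4a^3 + 27b^2 ≠ 0`. -/
def Pairs : Set (𝓞 F × 𝓞 F) := {q | 4 * q.1 ^ 3 + 27 * q.2 ^ 2 ≠ 0}

end

/-- **The Poonen-Rains law for all elliptic curves over `F`.** Let `F` be a number field. For every
sufficiently fast growing monotone function `Φ`: order all pairs `(a, b)` of integers of `F` with
`4a^3 + 27b^2 ≠ 0` by the maximum of the base height and of `Φ` of the norm of the twist part; then in
every residue class, for every `d ≥ 0`, the density of the curves `y^2 = x^3 + a x + b` with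
`dim Sel_2 = d` exists and equals `C_{2,d}`. -/
theorem result (F : Type) [Field F] [NumberField F] :
    ∃ Φ₀ : ℕ → ℝ, ∀ Φ : ℕ → ℝ, Monotone Φ → (∀ n, Φ₀ n ≤ Φ n) →
      (∀ X : ℝ, {q ∈ Pairs F | twistHeight Φ q ≤ X}.Finite) ∧
      ∀ (𝔪 : Ideal (𝓞 F)) (a₀ b₀ : 𝓞 F), 𝔪 ≠ ⊥ → ∀ d : ℕ, Tendsto (fun X : ℝ =>
        ({q ∈ Pairs F | q.1 - a₀ ∈ 𝔪 ∧ q.2 - b₀ ∈ 𝔪 ∧ twistHeight Φ q ≤ X ∧
          Nat.card (Sel 2 (curve (q.1 : F) (q.2 : F))) = 2 ^ d}.ncard : ℝ) /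
        ({q ∈ Pairs F | q.1 - a₀ ∈ 𝔪 ∧ q.2 - b₀ ∈ 𝔪 ∧ twistHeight Φ q ≤ X}.ncard : ℝ))
        atTop (𝓝 (C2 d)) := by
  obtain ⟨Φ₀, h⟩ := PV.mainO PV.All.hMLM PV.All.hLWO PV.All.hTWX PU.All.hEQZ PU.All.hIDA F
  refine ⟨Φ₀, fun Φ h1 h2 => ⟨(h Φ h1 h2).1, fun 𝔪 a₀ b₀ h𝔪 d => ?_⟩⟩
  exact (h Φ h1 h2).2 𝔪 (a₀, b₀) h𝔪 d

end Pool.Agent.Results.MP_8cb858_nt.TwistHeightOrder
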